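import Pool.Agent.Q165.LayerBoard

set_option autoImplicit false

/-!
# The derangement-to-permutation ratios of digraphs are dense in `[0, 1/2]`
-/

namespace Pool.Agent.Results.MP_864c98_co.Dense

open Equiv Finset Filter Topology Q165.Layer

/-- The number of derangements on a digraph. -/
noncomputable def d {V : Type} (E : V → V → Prop) : ℕ := Nat.card {σ : Perm V // ∀ v, E v (σ v)}

/-- The number of permutations on a digraph. -/
noncomputable def p {V : Type} (E : V → V → Prop) : ℕ :=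
  Nat.card {σ : Perm V // ∀ v, σ v = v ∨ E v (σ v)}

/-- The set of ratios `d(G) / p(G)` for the nonempty finite loopless digraphs `G`. -/
def S : Set ℝ :=
  {q | ∃ (V : Type) (_ : Finite V) (_ : Nonempty V) (E : V → V → Prop),
    (∀ v, ¬ E v v) ∧ q = (d E : ℝ) / (p E : ℝ)}

theorem layer_mem (L k : ℕ) (hk : 1 ≤ k) (b : Fin k → Fin k → Prop) :
    (Nat.card {σ : Perm (Fin (L + 2) × Fin k) //
        IsDer (Arc (finRotate (L + 2)) (boards L b)) σ} : ℝ) /
      (Nat.card {σ : Perm (Fin (L + 2) × Fin k) //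
        IsPerm (Arc (finRotate (L + 2)) (boards L b)) σ} : ℝ) ∈ S := by
  refine ⟨Fin (L + 2) × Fin k, inferInstance, ⟨(0, ⟨0, hk⟩)⟩,
    Arc (finRotate (L + 2)) (boards L b), ?_, rfl⟩
  intro v hv
  exact rotate_ne L v.1 hv.1.symm

theorem card_lt (k c : ℕ) (hc : c ≤ k) : (univ.filter (fun x : Fin k => (x : ℕ) < c)).card = c := by
  have h1 : (univ.filter (fun x : Fin k => (x : ℕ) < c)).image (fun x : Fin k => (x : ℕ)) =
      Finset.range c := by
    ext y
    rw [Finset.mem_image, Finset.mem_range]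
    constructor
    · rintro ⟨x, hx, rfl⟩
      exact (mem_filter.mp hx).2
    · intro hy
      exact ⟨⟨y, by omega⟩, mem_filter.mpr ⟨mem_univ _, hy⟩, rfl⟩
  rw [← Finset.card_image_of_injective _ Fin.val_injective, h1, Finset.card_range]

/-- The limits for a fixed width. -/
theorem mem_closure_fixed (a r k : ℕ) (hr : 1 ≤ r) (hk1 : 1 ≤ k) (hk : a + r ≤ k) :
    1 / (2 + (a : ℝ) * ((k : ℝ) + 1 - a - r) / (k * r)) ∈ closure S := by
  classical
  let A : Finset (Fin k) := univ.filter (fun x : Fin k => (x : ℕ) < a)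
  let Z : Finset (Fin k) := univ.filter (fun x : Fin k => (x : ℕ) < k + 1 - a - r)
  have hA : A.card = a := card_lt k a (by omega)
  have hZ : Z.card = k + 1 - a - r := card_lt k _ (by omega)
  have hm : 0 < M (rect A Z) k := by
    rw [M_top_rect]
    apply Finset.card_pos.mpr
    refine ⟨Fin.revPerm, ?_⟩
    unfold P0
    rw [mem_filter]
    refine ⟨mem_univ _, ?_⟩
    intro x hx hc
    simp only [A, Z, mem_filter, mem_univ, true_and, Fin.revPerm_apply, Fin.val_rev] at hx hc
    have := x.isLt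
    omega
  have ht := ratio_tendsto (rect A Z) hk1 hm
  have hk0 : (0 : ℝ) < k := by exact_mod_cast hk1
  have hr0 : (0 : ℝ) < r := by exact_mod_cast hr
  have hP0 : (0 : ℝ) < (P0 A Z).card := by
    rw [M_top_rect] at hm
    exact_mod_cast hm
  have hval : 1 + (M (rect A Z) (k - 1) : ℝ) / (k * M (rect A Z) k) =
      2 + (a : ℝ) * ((k : ℝ) + 1 - a - r) / (k * r) := by
    rw [M_pred_rect A Z hk1, M_top_rect]
    have h1 := P1_mul A Z r (by rw [hA, hZ]; omega)
    rw [hA, hZ] at h1
    have h2 : ((P1 A Z).card : ℝ) * r = (P0 A Z).card * (a * ((k : ℝ) + 1 - a - r)) := by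
      have h3 : (((P1 A Z).card * r : ℕ) : ℝ) =
          (((P0 A Z).card * (a * (k + 1 - a - r)) : ℕ) : ℝ) := by rw [h1]
      rw [Nat.cast_mul, Nat.cast_mul, Nat.cast_mul, Nat.cast_sub (by omega),
        Nat.cast_sub (by omega)] at h3
      push_cast at h3
      exact h3
    have h4 : ((P1 A Z).card : ℝ) = (P0 A Z).card * (a * ((k : ℝ) + 1 - a - r)) / r := by
      rw [eq_div_iff hr0.ne']
      exact h2
    push_cast
    rw [h4]
    field_simp
    ring
  rw [hval] at ht
  have hpos : (2 + (a : ℝ) * ((k : ℝ) + 1 - a - r) / (k * r)) ≠ 0 := by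
    have h1 : (0 : ℝ) ≤ (k : ℝ) + 1 - a - r := by
      have : ((a + r : ℕ) : ℝ) ≤ k := by exact_mod_cast hk
      push_cast at this
      linarith
    positivity
  have ht2 := ht.inv₀ hpos
  rw [one_div]
  apply mem_closure_of_tendsto ht2
  filter_upwards with L
  rw [inv_div]
  exact layer_mem L k hk1 (rect A Z)

theorem mem_closure_rat (a r : ℕ) (hr : 1 ≤ r) : 1 / (2 + (a : ℝ) / r) ∈ closure S := by
  have hr0 : (0 : ℝ) < r := by exact_mod_cast hr
  have h1 : Tendsto (fun k : ℕ => 1 / (2 + (a : ℝ) * ((k : ℝ) + 1 - a - r) / (k * r))) atTop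
      (𝓝 (1 / (2 + (a : ℝ) / r))) := by
    have h2 : Tendsto (fun k : ℕ => (1 - (a : ℝ) - r) / (k : ℝ)) atTop (𝓝 0) :=
      tendsto_const_div_atTop_nhds_zero_nat _
    have h3 : Tendsto (fun k : ℕ => 1 / (2 + (a : ℝ) / r * (1 + (1 - (a : ℝ) - r) / (k : ℝ)))) atTop
        (𝓝 (1 / (2 + (a : ℝ) / r * (1 + 0)))) := by
      apply Tendsto.div tendsto_const_nhds
      · exact tendsto_const_nhds.add (tendsto_const_nhds.mul (tendsto_const_nhds.add h2))
      · positivity
    rw [add_zero, mul_one] at h3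
    refine h3.congr' ?_
    filter_upwards [eventually_ge_atTop 1] with k hk
    have hk0 : (0 : ℝ) < k := by exact_mod_cast hk
    congr 1
    congr 1
    field_simp
    ring
  have h4 : 1 / (2 + (a : ℝ) / r) ∈ closure (closure S) := by
    apply mem_closure_of_tendsto h1
    filter_upwards [eventually_ge_atTop (a + r)] with k hk
    exact mem_closure_fixed a r k hr (by omega) hk
  rwa [closure_closure] at h4

/-- The ratios are dense in `[0, 1/2]`. -/
theorem result : Set.Icc (0 : ℝ) (1 / 2) ⊆ closure S := by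
  rw [← closure_Ioo (by norm_num : (0 : ℝ) ≠ 1 / 2)]
  apply closure_minimal _ isClosed_closure
  intro x hx
  obtain ⟨hx0, hx1⟩ := hx
  rw [← closure_closure, Metric.mem_closure_iff]
  intro ε hε
  obtain ⟨y, hy1, hy2⟩ := exists_between (lt_min hx1 (by linarith : x < x + ε))
  have hy3 : y < 1 / 2 := lt_of_lt_of_le hy2 (min_le_left _ _)
  have hy4 : y < x + ε := lt_of_lt_of_le hy2 (min_le_right _ _)
  have hy0 : 0 < y := hx0.trans hy1
  have hlt : 1 / y - 2 < 1 / x - 2 := by
    have := one_div_lt_one_div_of_lt hx0 hy1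
    linarith
  obtain ⟨q, hq1, hq2⟩ := exists_rat_btwn hlt
  have hyinv : 2 < 1 / y := by
    rw [lt_div_iff₀ hy0]
    linarith
  have hq0 : (0 : ℝ) < q := by linarith
  have hq0' : 0 < q := by exact_mod_cast hq0
  have hnum : 0 < q.num := Rat.num_pos.mpr hq0'
  obtain ⟨a, ha⟩ : ∃ a : ℕ, (a : ℤ) = q.num := ⟨q.num.toNat, Int.toNat_of_nonneg hnum.le⟩
  have hqeq : (q : ℝ) = (a : ℝ) / (q.den : ℝ) := by
    have h1 : (q : ℝ) = (q.num : ℝ) / (q.den : ℝ) := by exact_mod_cast (Rat.num_div_den q).symm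
    rw [h1, ← ha]
    push_cast
    rfl
  refine ⟨1 / (2 + (a : ℝ) / q.den), mem_closure_rat a q.den q.den_pos, ?_⟩
  rw [← hqeq, Real.dist_eq, abs_lt]
  have h1 : x < 1 / (2 + (q : ℝ)) := by
    rw [lt_div_iff₀ (by linarith)]
    have h2 : 2 + (q : ℝ) < 1 / x := by linarith
    have h3 := mul_lt_mul_of_pos_left h2 hx0
    rwa [mul_one_div_cancel hx0.ne'] at h3
  have h2 : 1 / (2 + (q : ℝ)) < y := by
    rw [div_lt_iff₀ (by linarith)]
    have h3 : 1 / y < 2 + (q : ℝ) := by linarith
    have h4 := mul_lt_mul_of_pos_left h3 hy0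
    rwa [mul_one_div_cancel hy0.ne'] at h4
  constructor <;> linarith

end Pool.Agent.Results.MP_864c98_co.Dense
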